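import Mathlib

/-!
# Straight-line drawings of graphs with short and long edges
-/

namespace Pool.Agent.R553.LS

/-- An instance `(V, S, L)`: the list of the vertices (natural numbers), the list of the short
edges and the list of the long edges. An edge is a pair `(u, v)` of vertices with `u < v`. -/
abbrev Inst : Type := List ℕ × List (ℕ × ℕ) × List (ℕ × ℕ)

/-- The list of all edges of the underlying graph: the short ones and the long ones. -/
def edges (G : Inst) : List (ℕ × ℕ) := G.2.1 ++ G.2.2

/-- `(V, S, L)` describes a finite simple graph with vertex set `V` whose edges are partitioned into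
the short edges `S` and the long edges `L`: every edge is a pair `(u, v)` of vertices with `u < v`
(there are no loops, and an edge is written in one way only), and no edge is listed twice (in
particular no edge is both short and long). -/
structure IsInst (G : Inst) : Prop where
  ends : ∀ e ∈ edges G, e.1 ∈ G.1 ∧ e.2 ∈ G.1 ∧ e.1 < e.2
  simple : (edges G).Nodup

/-- The underlying graph is a complete bipartite graph `K_{m,n}` with `m, n ≥ 1`: the vertex set is
the disjoint union of two nonempty sets `A` and `B`, and the edges are exactly the pairs with one
member in `A` and the other one in `B`. -/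
def IsCompleteBipartite (G : Inst) : Prop :=
  ∃ A B : Finset ℕ, A.Nonempty ∧ B.Nonempty ∧ Disjoint A B ∧ (∀ v, v ∈ G.1 ↔ v ∈ A ∨ v ∈ B) ∧
    ∀ u v, u < v → ((u, v) ∈ edges G ↔ (u ∈ A ∧ v ∈ B) ∨ (u ∈ B ∧ v ∈ A))

/-- The Euclidean length of the segment between two points of the plane. -/
noncomputable def len (x y : ℝ × ℝ) : ℝ := Real.sqrt ((x.1 - y.1) ^ 2 + (x.2 - y.2) ^ 2)

/-- The map `p` is a straight-line drawing of the graph in which the edges of length at most `1`
are exactly the short edges: the vertices are mapped to distinct points, the segment of an edge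
contains no vertex other than its endpoints, short edges have length at most `1`, and long edges
have length greater than `1`. -/
structure Realizes (G : Inst) (p : ℕ → ℝ × ℝ) : Prop where
  inj : ∀ u ∈ G.1, ∀ v ∈ G.1, p u = p v → u = v
  avoid : ∀ e ∈ edges G, ∀ w ∈ G.1, w ≠ e.1 → w ≠ e.2 → p w ∉ segment ℝ (p e.1) (p e.2)
  short : ∀ e ∈ G.2.1, len (p e.1) (p e.2) ≤ 1
  long : ∀ e ∈ G.2.2, 1 < len (p e.1) (p e.2)

/-- The graph with short and long edges has a realizing straight-line drawing. -/
def Realizable (G : Inst) : Prop := ∃ p : ℕ → ℝ × ℝ, Realizes G p

end Pool.Agent.R553.LS
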