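import Pool.Agent.R553.LS.Defs
import Pool.Agent.H606R2.GPP.SegF

/-!
# Perturbation into general position
-/

set_option autoImplicit false

namespace Pool.Agent.R553.LS

open Filter Topology
open Pool.Agent.NPC.ER.GPP (D mem_seg_iff)

theorem lin_ne {a b : ℝ} (hb : b ≠ 0) : ∀ᶠ t in 𝓝[>] (0 : ℝ), a + t * b ≠ 0 := by
  by_cases ha : a = 0
  · filter_upwards [self_mem_nhdsWithin] with t ht
    rw [ha, zero_add]
    exact mul_ne_zero (ne_of_gt ht) hb
  · have hc : ContinuousAt (fun t : ℝ => a + t * b) 0 := by fun_prop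
    have h0 : (fun t : ℝ => a + t * b) 0 ≠ 0 := by simpa using ha
    exact nhdsWithin_le_nhds (hc.eventually_ne h0)

theorem quad_ne {a b c : ℝ} (ha : a ≠ 0) : ∀ᶠ t in 𝓝[>] (0 : ℝ), a * t ^ 2 + b * t + c ≠ 0 := by
  by_cases hc : c = 0
  · filter_upwards [self_mem_nhdsWithin, lin_ne (a := b) ha] with t ht h
    have : a * t ^ 2 + b * t + c = t * (b + t * a) := by rw [hc]; ring
    rw [this]
    exact mul_ne_zero (ne_of_gt ht) h
  · have hc' : ContinuousAt (fun t : ℝ => a * t ^ 2 + b * t + c) 0 := by fun_prop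
    have h0 : (fun t : ℝ => a * t ^ 2 + b * t + c) 0 ≠ 0 := by simpa using hc
    exact nhdsWithin_le_nhds (hc'.eventually_ne h0)

/-- The perturbed points. -/
def pert (p : ℕ → ℝ × ℝ) (t : ℝ) (v : ℕ) : ℝ × ℝ := ((p v).1 + t * v, (p v).2 + t * v ^ 2)

theorem pert_ne (p : ℕ → ℝ × ℝ) {u v : ℕ} (h : u ≠ v) :
    ∀ᶠ t in 𝓝[>] (0 : ℝ), pert p t u ≠ pert p t v := by
  have h1 : ((u : ℝ) - v) ≠ 0 := sub_ne_zero.2 (by exact_mod_cast h)
  filter_upwards [lin_ne (a := (p u).1 - (p v).1) h1] with t ht he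
  apply ht
  have := congrArg Prod.fst he
  simp only [pert] at this
  linarith

theorem pert_D (p : ℕ → ℝ × ℝ) {u v w : ℕ} (h1 : u ≠ v) (h2 : u ≠ w) (h3 : v ≠ w) :
    ∀ᶠ t in 𝓝[>] (0 : ℝ), D (pert p t u) (pert p t v) (pert p t w) ≠ 0 := by
  have k1 : ((v : ℝ) - u) ≠ 0 := sub_ne_zero.2 (by exact_mod_cast h1.symm)
  have k2 : ((w : ℝ) - u) ≠ 0 := sub_ne_zero.2 (by exact_mod_cast h2.symm)
  have k3 : ((w : ℝ) - v) ≠ 0 := sub_ne_zero.2 (by exact_mod_cast h3.symm)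
  have ha : ((v : ℝ) - u) * ((w : ℝ) - u) * ((w : ℝ) - v) ≠ 0 := mul_ne_zero (mul_ne_zero k1 k2) k3
  filter_upwards [quad_ne (b := ((p v).1 - (p u).1) * ((w : ℝ) ^ 2 - u ^ 2) +
    ((v : ℝ) - u) * ((p w).2 - (p u).2) - ((p v).2 - (p u).2) * ((w : ℝ) - u) -
    ((v : ℝ) ^ 2 - u ^ 2) * ((p w).1 - (p u).1)) (c := D (p u) (p v) (p w)) ha] with t ht
  convert ht using 1
  simp only [D, pert]
  ring

theorem pert_len (p : ℕ → ℝ × ℝ) (u v : ℕ) :
    Tendsto (fun t => len (pert p t u) (pert p t v)) (𝓝[>] (0 : ℝ)) (𝓝 (len (p u) (p v))) := by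
  have hc : ContinuousAt (fun t : ℝ => len (pert p t u) (pert p t v)) 0 := by
    unfold len pert
    fun_prop
  have := hc.tendsto
  have e : len (pert p 0 u) (pert p 0 v) = len (p u) (p v) := by simp [pert]
  rw [e] at this
  exact this.mono_left nhdsWithin_le_nhds

/-- Strict inequalities between the lengths and `1` can be satisfied by a drawing in general
position. -/
theorem exists_drawing {G : Inst} (hG : IsInst G) (p : ℕ → ℝ × ℝ)
    (hs : ∀ e ∈ G.2.1, len (p e.1) (p e.2) < 1) (hl : ∀ e ∈ G.2.2, 1 < len (p e.1) (p e.2)) :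
    Realizable G := by
  have e1 : ∀ᶠ t in 𝓝[>] (0 : ℝ), ∀ u ∈ G.1.toFinset, ∀ v ∈ G.1.toFinset, u ≠ v →
      pert p t u ≠ pert p t v := by
    rw [eventually_all_finset]
    intro u _
    rw [eventually_all_finset]
    intro v _
    by_cases h : u = v
    · exact Eventually.of_forall fun t h' => absurd h h'
    · exact (pert_ne p h).mono fun t ht _ => ht
  have e2 : ∀ᶠ t in 𝓝[>] (0 : ℝ), ∀ u ∈ G.1.toFinset, ∀ v ∈ G.1.toFinset, ∀ w ∈ G.1.toFinset,
      u ≠ v → u ≠ w → v ≠ w → D (pert p t u) (pert p t v) (pert p t w) ≠ 0 := by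
    rw [eventually_all_finset]
    intro u _
    rw [eventually_all_finset]
    intro v _
    rw [eventually_all_finset]
    intro w _
    by_cases h : u ≠ v ∧ u ≠ w ∧ v ≠ w
    · exact (pert_D p h.1 h.2.1 h.2.2).mono fun t ht _ _ _ => ht
    · exact Eventually.of_forall fun t h1 h2 h3 => absurd ⟨h1, h2, h3⟩ h
  have e3 : ∀ᶠ t in 𝓝[>] (0 : ℝ), ∀ e ∈ G.2.1.toFinset, len (pert p t e.1) (pert p t e.2) < 1 := by
    rw [eventually_all_finset]
    intro e he
    exact (pert_len p e.1 e.2).eventually_lt_const (hs e (List.mem_toFinset.1 he))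
  have e4 : ∀ᶠ t in 𝓝[>] (0 : ℝ), ∀ e ∈ G.2.2.toFinset, 1 < len (pert p t e.1) (pert p t e.2) := by
    rw [eventually_all_finset]
    intro e he
    exact (pert_len p e.1 e.2).eventually_const_lt (hl e (List.mem_toFinset.1 he))
  obtain ⟨t, h1, h2, h3, h4⟩ := (e1.and (e2.and (e3.and e4))).exists
  refine ⟨pert p t, ?_, ?_, ?_, ?_⟩
  · intro u hu v hv h
    by_contra hne
    exact h1 u (List.mem_toFinset.2 hu) v (List.mem_toFinset.2 hv) hne h
  · intro e he w hw hw1 hw2 hmem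
    obtain ⟨k1, k2, k3⟩ := hG.ends e he
    exact h2 e.1 (List.mem_toFinset.2 k1) e.2 (List.mem_toFinset.2 k2) w (List.mem_toFinset.2 hw)
      (ne_of_lt k3) (Ne.symm hw1) (Ne.symm hw2) (mem_seg_iff.1 hmem).1
  · intro e he
    exact (h3 e (List.mem_toFinset.2 he)).le
  · intro e he
    exact h4 e (List.mem_toFinset.2 he)

end Pool.Agent.R553.LS
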