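import Pool.Agent.R553.LS.Red
import Pool.Agent.H606R2.GPP.Member
import Pool.Agent.H606R2.GPP.PolyR
import Pool.Agent.H601R2.PP
import Pool.Agent.H625R2.BallFin

/-!
# Membership in `∃ℝ` and polynomial time
-/

set_option autoImplicit false

namespace Pool.Agent.NPC.R553LS

open Pool.Agent.NPC Pool.Agent.NPC.ER Pool.Agent.NPC.ER.Pat Pool.Agent.R553.LS
open Pool.Agent.NPC.H670R2 (ff tt conj holds_ff holds_tt holds_conj poly_conj poly_tvar poly_tadd
  poly_tmul poly_tneg poly_eq poly_lt poly_not poly_and poly_or poly_le not_etr_ff)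
open Pool.Agent.NPC.ER.GPP (vx subT poly_subT poly_two)

/-! ### The reduction is computable in polynomial time -/

theorem poly_pairs : Poly pairs := by
  unfold pairs
  refine Poly.flatMap (F := fun (M : List (List Bool)) (i : ℕ) =>
    (List.range (2 * wid M)).map fun k => (i, M.length + k)) (Poly.range_length Poly.id) ?_
  refine Poly.map (F := fun (p : List (List Bool) × ℕ) (k : ℕ) => (p.2, p.1.length + k)) ?_ ?_
  · exact (UPoly.mul (UPoly.const 2) (upoly_wid (Poly.fst Poly.id))).range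
  · exact Poly.pair (Poly.snd (Poly.fst Poly.id))
      (Poly.add (Poly.length (Poly.fst (Poly.fst Poly.id))) (Poly.snd Poly.id))

theorem poly_isShort : Poly (fun p : List (List Bool) × ℕ × ℕ => isShort p.1 p.2) := by
  have hM : Poly (fun p : List (List Bool) × ℕ × ℕ => p.1) := Poly.fst Poly.id
  have h1 : Poly (fun p : List (List Bool) × ℕ × ℕ => p.2.1) := Poly.fst (Poly.snd Poly.id)
  have h2 : Poly (fun p : List (List Bool) × ℕ × ℕ => p.2.2) := Poly.snd (Poly.snd Poly.id)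
  have hk := Poly.sub h2 (Poly.length hM)
  have he := poly_ent hM h1 (Poly.div hk (Poly.const 2))
  unfold isShort
  exact Poly.ite (Poly.decide_eq (Poly.mod hk (Poly.const 2)) (Poly.const 0)) he (Poly.not he)

theorem poly_red : Poly red := by
  unfold red
  have hM : Poly (fun M : List (List Bool) => M) := Poly.id
  refine Poly.ite ?_ (Poly.const _) (Poly.pair ?_ (Poly.pair ?_ ?_))
  · exact Poly.decide_or (Poly.decide_eq (Poly.length hM) (Poly.const 0))
      (Poly.decide_eq (upoly_wid hM).toPoly (Poly.const 0))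
  · exact (UPoly.add (UPoly.length hM) (UPoly.mul (UPoly.const 2) (upoly_wid hM))).range
  · exact Poly.filter (p := fun M e => isShort M e) poly_pairs poly_isShort
  · exact Poly.filter (p := fun M e => !isShort M e) poly_pairs (Poly.not poly_isShort)

/-! ### Recognition of the instances -/

theorem pairwise_iff_zipIdx {β : Type} (l : List β) (R : β → β → Prop) :
    (∀ x ∈ l.zipIdx, ∀ y ∈ l.zipIdx, ¬ x.2 < y.2 ∨ R x.1 y.1) ↔ l.Pairwise R := by
  rw [List.pairwise_iff_getElem]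
  constructor
  · intro h i j hi hj hij
    have h1 := h (l[i], i) (by
      rw [List.mem_zipIdx_iff_getElem?]; simp [hi]) (l[j], j) (by
      rw [List.mem_zipIdx_iff_getElem?]; simp [hj])
    rcases h1 with h1 | h1
    · exact absurd hij h1
    · exact h1
  · rintro h ⟨x, i⟩ hx ⟨y, j⟩ hy
    rw [List.mem_zipIdx_iff_getElem?] at hx hy
    simp only at hx hy ⊢
    by_cases hij : i < j
    · right
      obtain ⟨hi, hi'⟩ := List.getElem?_eq_some_iff.1 hx
      obtain ⟨hj, hj'⟩ := List.getElem?_eq_some_iff.1 hy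
      have := h i j hi hj hij
      rwa [hi', hj'] at this
    · exact Or.inl hij

theorem pp_nodup {α β : Type} [TEnc α] [TEnc β] {l : α → List β} (hl : Poly l) :
    PP (fun a => (l a).Nodup) := by
  refine PP.congr (p := fun a => ∀ x ∈ (l a).zipIdx, ∀ y ∈ (l a).zipIdx, ¬ x.2 < y.2 ∨ x.1 ≠ y.1)
    ?_ (fun a => pairwise_iff_zipIdx _ _)
  refine PP.ball (r := fun a (x : β × ℕ) => ∀ y ∈ (l a).zipIdx, ¬ x.2 < y.2 ∨ x.1 ≠ y.1)
    (Poly.zipIdx hl) ?_
  refine PP.ball (l := fun z : α × (β × ℕ) => (l z.1).zipIdx)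
    (r := fun (z : α × (β × ℕ)) (y : β × ℕ) => ¬ z.2.2 < y.2 ∨ z.2.1 ≠ y.1)
    (Poly.zipIdx (hl.comp (Poly.fst Poly.id))) ?_
  exact PP.or (PP.not (PP.lt (by fun_prop) (by fun_prop))) (PP.ne (by fun_prop) (by fun_prop))

theorem poly_edges : Poly edges :=
  Poly.append (Poly.fst (Poly.snd Poly.id)) (Poly.snd (Poly.snd Poly.id))

/-- Adjacency in the underlying graph. -/
def AdjP (G : Inst) (a b : ℕ) : Prop := (a, b) ∈ edges G ∨ (b, a) ∈ edges G

/-- A bounded form of complete bipartiteness. -/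
def BipP (G : Inst) : Prop := ∃ e ∈ edges G, ∀ u ∈ G.1, ∀ v ∈ G.1,
  (¬ u < v ∨ (((u, v) ∈ edges G ∧ ((AdjP G e.1 u ∧ ¬ AdjP G e.1 v) ∨ (¬ AdjP G e.1 u ∧ AdjP G e.1 v)))
    ∨ (¬ (u, v) ∈ edges G ∧ ((AdjP G e.1 u ∧ AdjP G e.1 v) ∨ (¬ AdjP G e.1 u ∧ ¬ AdjP G e.1 v)))))

theorem bipP_iff {G : Inst} (hG : IsInst G) : BipP G ↔ IsCompleteBipartite G := by
  classical
  constructor
  · rintro ⟨e, he, h⟩
    obtain ⟨k1, k2, k3⟩ := hG.ends e he
    have hself : ¬ AdjP G e.1 e.1 := by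
      rintro (h1 | h1) <;> exact lt_irrefl _ (hG.ends _ h1).2.2
    refine ⟨G.1.toFinset.filter (fun v => ¬ AdjP G e.1 v), G.1.toFinset.filter (fun v => AdjP G e.1 v),
      ⟨e.1, ?_⟩, ⟨e.2, ?_⟩, ?_, ?_, ?_⟩
    · rw [Finset.mem_filter, List.mem_toFinset]
      exact ⟨k1, hself⟩
    · rw [Finset.mem_filter, List.mem_toFinset]
      exact ⟨k2, Or.inl he⟩
    · rw [Finset.disjoint_left]
      intro a ha hb
      rw [Finset.mem_filter] at ha hb
      exact ha.2 hb.2
    · intro v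
      rw [Finset.mem_filter, Finset.mem_filter, List.mem_toFinset]
      by_cases hv : AdjP G e.1 v
      · simp [hv]
      · simp [hv]
    · intro u v huv
      simp only [Finset.mem_filter, List.mem_toFinset]
      constructor
      · intro h1
        obtain ⟨j1, j2, -⟩ := hG.ends _ h1
        simp only at j1 j2
        rcases h u j1 v j2 with h2 | ⟨-, h2 | h2⟩ | ⟨h2, -⟩
        · exact absurd huv h2
        · exact Or.inr ⟨⟨j1, h2.1⟩, j2, h2.2⟩
        · exact Or.inl ⟨⟨j1, h2.1⟩, j2, h2.2⟩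
        · exact absurd h1 h2
      · rintro (⟨⟨j1, h1⟩, j2, h2⟩ | ⟨⟨j1, h1⟩, j2, h2⟩)
        · rcases h u j1 v j2 with h3 | ⟨h3, -⟩ | ⟨-, h3 | h3⟩
          · exact absurd huv h3
          · exact h3
          · exact absurd h3.1 h1
          · exact absurd h2 h3.2
        · rcases h u j1 v j2 with h3 | ⟨h3, -⟩ | ⟨-, h3 | h3⟩
          · exact absurd huv h3
          · exact h3
          · exact absurd h3.2 h2
          · exact absurd h1 h3.1
  · rintro ⟨A, B, ⟨a, ha⟩, ⟨b, hb⟩, hd, hV, hE⟩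
    have hdis : ∀ x, x ∈ A → x ∈ B → False := fun x h1 h2 => (Finset.disjoint_left.1 hd) h1 h2
    have hab : a ≠ b := fun h => hdis a ha (h ▸ hb)
    obtain ⟨e, he⟩ : ∃ e, e ∈ edges G := by
      rcases lt_or_gt_of_ne hab with h | h
      · exact ⟨(a, b), (hE a b h).2 (Or.inl ⟨ha, hb⟩)⟩
      · exact ⟨(b, a), (hE b a h).2 (Or.inr ⟨hb, ha⟩)⟩
    obtain ⟨k1, k2, k3⟩ := hG.ends e he
    have hadj : ∀ x y, AdjP G x y ↔ (x ∈ A ∧ y ∈ B) ∨ (x ∈ B ∧ y ∈ A) := by
      intro x y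
      rcases lt_trichotomy x y with h | h | h
      · have : ¬ (y, x) ∈ edges G := fun h' => by
          have := (hG.ends _ h').2.2
          simp only at this
          omega
        unfold AdjP
        rw [hE x y h]
        tauto
      · subst h
        have h1 : ¬ (x, x) ∈ edges G := fun h' => lt_irrefl _ (hG.ends _ h').2.2
        have h2 := hdis x
        unfold AdjP
        tauto
      · have : ¬ (x, y) ∈ edges G := fun h' => by
          have := (hG.ends _ h').2.2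
          simp only at this
          omega
        unfold AdjP
        rw [hE y x h]
        tauto
    refine ⟨e, he, fun u hu v hv => ?_⟩
    have hx : ∀ x ∈ G.1, (x ∈ A ∧ x ∉ B) ∨ (x ∉ A ∧ x ∈ B) := by
      intro x hx
      rcases (hV x).1 hx with h | h
      · exact Or.inl ⟨h, fun h' => hdis x h h'⟩
      · exact Or.inr ⟨fun h' => hdis x h' h, h⟩
    by_cases huv : u < v
    · right
      rw [hE u v huv, hadj, hadj]
      rcases hx u hu with ⟨a1, a2⟩ | ⟨a1, a2⟩ <;> rcases hx v hv with ⟨b1, b2⟩ | ⟨b1, b2⟩ <;>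
        rcases hx e.1 k1 with ⟨c1, c2⟩ | ⟨c1, c2⟩ <;> simp [a1, a2, b1, b2, c1, c2]
    · exact Or.inl huv

theorem pp_adj : PP (fun q : ((Inst × ℕ × ℕ) × ℕ) × ℕ => AdjP q.1.1.1 q.1.1.2.1 q.1.2) := by
  have hE : Poly (fun q : ((Inst × ℕ × ℕ) × ℕ) × ℕ => edges q.1.1.1) :=
    poly_edges.comp (Poly.fst (Poly.fst (Poly.fst Poly.id)))
  exact PP.or (PP.mem (by fun_prop) hE) (PP.mem (by fun_prop) hE)

theorem pp_adj' : PP (fun q : ((Inst × ℕ × ℕ) × ℕ) × ℕ => AdjP q.1.1.1 q.1.1.2.1 q.2) := by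
  have hE : Poly (fun q : ((Inst × ℕ × ℕ) × ℕ) × ℕ => edges q.1.1.1) :=
    poly_edges.comp (Poly.fst (Poly.fst (Poly.fst Poly.id)))
  exact PP.or (PP.mem (by fun_prop) hE) (PP.mem (by fun_prop) hE)

theorem pp_bip : PP BipP := by
  unfold BipP
  have hE : Poly (fun q : ((Inst × ℕ × ℕ) × ℕ) × ℕ => edges q.1.1.1) :=
    poly_edges.comp (Poly.fst (Poly.fst (Poly.fst Poly.id)))
  refine PP.bex (r := fun (G : Inst) (e : ℕ × ℕ) => ∀ u ∈ G.1, ∀ v ∈ G.1,
    (¬ u < v ∨ (((u, v) ∈ edges G ∧ ((AdjP G e.1 u ∧ ¬ AdjP G e.1 v) ∨ (¬ AdjP G e.1 u ∧ AdjP G e.1 v)))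
    ∨ (¬ (u, v) ∈ edges G ∧ ((AdjP G e.1 u ∧ AdjP G e.1 v) ∨ (¬ AdjP G e.1 u ∧ ¬ AdjP G e.1 v))))))
    poly_edges ?_
  refine PP.ball (l := fun (p : Inst × ℕ × ℕ) => p.1.1) (r := fun (p : Inst × ℕ × ℕ) (u : ℕ) =>
    ∀ v ∈ p.1.1, (¬ u < v ∨ (((u, v) ∈ edges p.1 ∧ ((AdjP p.1 p.2.1 u ∧ ¬ AdjP p.1 p.2.1 v) ∨
      (¬ AdjP p.1 p.2.1 u ∧ AdjP p.1 p.2.1 v)))
    ∨ (¬ (u, v) ∈ edges p.1 ∧ ((AdjP p.1 p.2.1 u ∧ AdjP p.1 p.2.1 v) ∨
      (¬ AdjP p.1 p.2.1 u ∧ ¬ AdjP p.1 p.2.1 v)))))) (Poly.fst (Poly.fst Poly.id)) ?_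
  refine PP.ball (l := fun (p : (Inst × ℕ × ℕ) × ℕ) => p.1.1.1)
    (r := fun (p : (Inst × ℕ × ℕ) × ℕ) (v : ℕ) =>
    (¬ p.2 < v ∨ (((p.2, v) ∈ edges p.1.1 ∧ ((AdjP p.1.1 p.1.2.1 p.2 ∧ ¬ AdjP p.1.1 p.1.2.1 v) ∨
      (¬ AdjP p.1.1 p.1.2.1 p.2 ∧ AdjP p.1.1 p.1.2.1 v)))
    ∨ (¬ (p.2, v) ∈ edges p.1.1 ∧ ((AdjP p.1.1 p.1.2.1 p.2 ∧ AdjP p.1.1 p.1.2.1 v) ∨
      (¬ AdjP p.1.1 p.1.2.1 p.2 ∧ ¬ AdjP p.1.1 p.1.2.1 v))))))
    (Poly.fst (Poly.fst (Poly.fst Poly.id))) ?_
  have hm : PP (fun q : ((Inst × ℕ × ℕ) × ℕ) × ℕ => (q.1.2, q.2) ∈ edges q.1.1.1) :=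
    PP.mem (by fun_prop) hE
  exact PP.or (PP.not (PP.lt (by fun_prop) (by fun_prop)))
    (PP.or (PP.and hm (PP.or (PP.and pp_adj (PP.not pp_adj')) (PP.and (PP.not pp_adj) pp_adj')))
      (PP.and (PP.not hm) (PP.or (PP.and pp_adj pp_adj') (PP.and (PP.not pp_adj)
        (PP.not pp_adj')))))

theorem pp_inst : PP IsInst := by
  refine PP.congr (p := fun G : Inst => (∀ e ∈ edges G, e.1 ∈ G.1 ∧ e.2 ∈ G.1 ∧ e.1 < e.2) ∧
    (edges G).Nodup) ?_ (fun G => ⟨fun h => ⟨h.1, h.2⟩, fun h => ⟨h.1, h.2⟩⟩)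
  refine PP.and ?_ (pp_nodup poly_edges)
  refine PP.ball (r := fun (G : Inst) (e : ℕ × ℕ) => e.1 ∈ G.1 ∧ e.2 ∈ G.1 ∧ e.1 < e.2)
    poly_edges ?_
  exact PP.and (PP.mem (by fun_prop) (by fun_prop)) (PP.and (PP.mem (by fun_prop) (by fun_prop))
    (PP.lt (by fun_prop) (by fun_prop)))

theorem pp_valid : PP (fun G : Inst => IsInst G ∧ IsCompleteBipartite G) :=
  (PP.and pp_inst pp_bip).congr fun G => by
    constructor
    · rintro ⟨h1, h2⟩
      exact ⟨h1, (bipP_iff h1).1 h2⟩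
    · rintro ⟨h1, h2⟩
      exact ⟨h1, (bipP_iff h1).2 h2⟩

/-! ### The formula -/

/-- The square of the distance. -/
def sqF (u v : ℕ) : Tm :=
  Tm.add (Tm.mul (subT (2 * u) (2 * v)) (subT (2 * u) (2 * v)))
    (Tm.mul (subT (2 * u + 1) (2 * v + 1)) (subT (2 * u + 1) (2 * v + 1)))

theorem eval_sqF (x : ℕ → ℝ) (u v : ℕ) : (sqF u v).eval x = len (vx x u) (vx x v) ^ 2 := by
  rw [← len_sq]
  simp only [sqF, subT, Tm.eval, vx]
  ring

/-- The list of conditions. -/
def condsLS (G : Inst) : List Fm :=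
  GPP.conds (G.1, edges G, []) ++ ((G.2.1.map fun e => Fm.le (sqF e.1 e.2) Tm.one) ++
    (G.2.2.map fun e => Fm.lt Tm.one (sqF e.1 e.2)))

theorem condsLS_iff {G : Inst} (hG : IsInst G) (x : ℕ → ℝ) :
    (∀ φ ∈ condsLS G, φ.Holds x) ↔ Realizes G (vx x) := by
  have hI : GPP.IsInst (G.1, edges G, []) := by
    constructor
    · intro e he
      obtain ⟨h1, h2, h3⟩ := hG.ends e he
      exact ⟨h1, h2, h3.ne⟩
    · intro e he
      exact absurd he (by simp)
  have h1 := GPP.conds_iff hI x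
  have hs : ∀ e : ℕ × ℕ, (Fm.le (sqF e.1 e.2) Tm.one).Holds x ↔ len (vx x e.1) (vx x e.2) ≤ 1 := by
    intro e
    have := len_nonneg (vx x e.1) (vx x e.2)
    simp only [Fm.Holds, Tm.eval, eval_sqF]
    constructor
    · intro h; nlinarith
    · intro h; nlinarith
  have hl : ∀ e : ℕ × ℕ, (Fm.lt Tm.one (sqF e.1 e.2)).Holds x ↔ 1 < len (vx x e.1) (vx x e.2) := by
    intro e
    have := len_nonneg (vx x e.1) (vx x e.2)
    simp only [Fm.Holds, Tm.eval, eval_sqF]
    constructor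
    · intro h; nlinarith
    · intro h; nlinarith
  unfold condsLS
  constructor
  · intro h
    have h2 := (h1.1 fun φ hφ => h φ (List.mem_append_left _ hφ)).1
    refine ⟨h2.inj, h2.avoid, fun e he => ?_, fun e he => ?_⟩
    · exact (hs e).1 (h _ (List.mem_append_right _ (List.mem_append_left _
        (List.mem_map.2 ⟨e, he, rfl⟩))))
    · exact (hl e).1 (h _ (List.mem_append_right _ (List.mem_append_right _
        (List.mem_map.2 ⟨e, he, rfl⟩))))
  · intro h φ hφ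
    rw [List.mem_append, List.mem_append, List.mem_map, List.mem_map] at hφ
    rcases hφ with hφ | ⟨e, he, rfl⟩ | ⟨e, he, rfl⟩
    · refine h1.2 ⟨⟨h.inj, h.avoid⟩, ?_⟩ φ hφ
      intro e he
      exact absurd he (by simp)
    · exact (hs e).2 (h.short e he)
    · exact (hl e).2 (h.long e he)

open Classical in
/-- The existential sentence. -/
noncomputable def formLS (G : Inst) : Fm :=
  if IsInst G ∧ IsCompleteBipartite G then conj (condsLS G) else ff

theorem formLS_correct (G : Inst) :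
    (IsInst G ∧ IsCompleteBipartite G ∧ Realizable G) ↔ ETR (formLS G) := by
  unfold formLS
  by_cases h : IsInst G ∧ IsCompleteBipartite G
  · rw [if_pos h]
    unfold ETR Realizable
    simp only [holds_conj, condsLS_iff h.1]
    constructor
    · rintro ⟨-, -, p, hp⟩
      refine ⟨fun n => if n % 2 = 0 then (p (n / 2)).1 else (p (n / 2)).2, ?_⟩
      have hv : vx (fun n => if n % 2 = 0 then (p (n / 2)).1 else (p (n / 2)).2) = p := by
        funext v
        unfold vx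
        have e1 : 2 * v % 2 = 0 := by omega
        have e2 : (2 * v + 1) % 2 = 1 := by omega
        have e3 : 2 * v / 2 = v := by omega
        have e4 : (2 * v + 1) / 2 = v := by omega
        simp only [e1, e2, e3, e4]
        rfl
      rw [hv]
      exact hp
    · rintro ⟨x, hx⟩
      exact ⟨h.1, h.2, vx x, hx⟩
  · rw [if_neg h]
    constructor
    · rintro ⟨h1, h2, -⟩
      exact absurd ⟨h1, h2⟩ h
    · intro h1
      exact absurd h1 not_etr_ff

theorem poly_sqF {α : Type} [TEnc α] {u v : α → ℕ} (hu : Poly u) (hv : Poly v) :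
    Poly (fun a => sqF (u a) (v a)) :=
  poly_tadd (poly_tmul (poly_subT (poly_two hu) (poly_two hv))
    (poly_subT (poly_two hu) (poly_two hv)))
    (poly_tmul (poly_subT (Poly.succ (poly_two hu)) (Poly.succ (poly_two hv)))
      (poly_subT (Poly.succ (poly_two hu)) (Poly.succ (poly_two hv))))

theorem poly_formLS : Poly formLS := by
  classical
  unfold formLS
  refine PP.ite pp_valid (poly_conj (Poly.append ?_ (Poly.append ?_ ?_))) (Poly.const _)
  · exact GPP.poly_conds.comp (Poly.pair (Poly.fst Poly.id) (Poly.pair poly_edges (Poly.const _)))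
  · refine Poly.map (F := fun (_ : Inst) (e : ℕ × ℕ) => Fm.le (sqF e.1 e.2) Tm.one)
      (Poly.fst (Poly.snd Poly.id)) ?_
    exact poly_le (poly_sqF (by fun_prop) (by fun_prop)) (Poly.const _)
  · refine Poly.map (F := fun (_ : Inst) (e : ℕ × ℕ) => Fm.lt Tm.one (sqF e.1 e.2))
      (Poly.snd (Poly.snd Poly.id)) ?_
    exact poly_lt (Poly.const _) (poly_sqF (by fun_prop) (by fun_prop))

theorem ls_mem : InER (lang fun G : Inst => IsInst G ∧ IsCompleteBipartite G ∧ Realizable G) :=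
  H670R2.InER.of_poly poly_formLS formLS_correct

/-- The reduction, for a construction of patterns. -/
theorem ls_correct {patOf : List Con → Pat} (h : IsPatOf patOf) (S : List Con) :
    Sat S ↔ Realizable (red (matOf patOf 0 S)) := by
  obtain ⟨m, hm⟩ := rect_matOf patOf 0 S
  constructor
  · intro hS
    exact real_of_SRN hm (h.srn (k := 0) hS)
  · intro hS
    exact h.sat (k := 0) (SR_of_real hm hS)

theorem ls_hard {patOf : List Con → Pat} (h : IsPatOf patOf) :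
    ∀ L, InER L → ∃ f : List Bool → Inst, PolyTime (fun w => bits (f w)) ∧
      ∀ w, IsInst (f w) ∧ IsCompleteBipartite (f w) ∧ (w ∈ L ↔ Realizable (f w)) := by
  rintro L ⟨g, hg, hL⟩
  have h1 : PC (id : List Bool → List Bool) (bits : Fm → List Bool) g :=
    H642R2.TMSim.polyTime_toPC hg
  have h2 : NPC.Poly (fun φ : Fm => red (matOf patOf 0 (sysOf φ))) :=
    (poly_red.comp (h.poly_matOf 0)).comp (poly_sysOf NPC.Poly.id)
  have h3 : PC (id : List Bool → List Bool) (bits : Inst → List Bool)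
      (fun x => red (matOf patOf 0 (sysOf (g x)))) :=
    PC.comp (g := fun φ : Fm => red (matOf patOf 0 (sysOf φ))) (eb := (bits : Fm → List Bool)) h2 h1
  have h4 : PC (id : List Bool → List Bool) (id : List Bool → List Bool)
    (fun x => bits (red (matOf patOf 0 (sysOf (g x))))) := h3
  refine ⟨fun x => red (matOf patOf 0 (sysOf (g x))), PC.toPolyTime h4, fun w =>
    ⟨red_isInst _, red_bip _, ?_⟩⟩
  rw [hL, ← sat_sysOf, ls_correct h]

theorem ls_complete {patOf : List Con → Pat} (h : IsPatOf patOf) :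
    ERComplete (lang fun G : Inst => IsInst G ∧ IsCompleteBipartite G ∧ Realizable G) := by
  refine ⟨ls_mem, fun L hL => ?_⟩
  obtain ⟨f, h1, h2⟩ := ls_hard h L hL
  refine ⟨fun w => bits (f w), h1, fun w => ?_⟩
  obtain ⟨k1, k2, k3⟩ := h2 w
  rw [k3]
  constructor
  · intro hr
    exact ⟨f w, rfl, k1, k2, hr⟩
  · rintro ⟨G, hG, h⟩
    rw [← bits_injective hG]
    exact h.2.2

end Pool.Agent.NPC.R553LS
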