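import Pool.Agent.R553.LS.Geo
import Pool.Agent.H625R2.BallMem

/-!
# From sign matrices to complete bipartite graphs with short and long edges

The rows of the matrix `M` become the vertices `0, …, n - 1` and the column `j` becomes the two
vertices `n + 2 j` and `n + 2 j + 1`. The edge between the row `i` and `n + 2 j` is short if and
only if the entry is `true`, the edge between the row `i` and `n + 2 j + 1` is short if and only if
the entry is `false`.
-/

set_option autoImplicit false

namespace Pool.Agent.R553.LS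

open Filter Topology
open Pool.Agent.NPC.ER.GPP (D mem_seg_iff)
open Pool.Agent.NPC.ER.Pat

/-- The numbers of the column vertices, minus `n`, in the row `i`. -/
def pairs (M : List (List Bool)) : List (ℕ × ℕ) :=
  (List.range M.length).flatMap fun i => (List.range (2 * wid M)).map fun k => (i, M.length + k)

/-- Short edges. -/
def isShort (M : List (List Bool)) (e : ℕ × ℕ) : Bool :=
  if (e.2 - M.length) % 2 = 0 then ent M e.1 ((e.2 - M.length) / 2)
  else !ent M e.1 ((e.2 - M.length) / 2)

/-- The graph of a matrix. -/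
def red (M : List (List Bool)) : Inst :=
  if M.length = 0 ∨ wid M = 0 then ([0, 1], [(0, 1)], []) else
    (List.range (M.length + 2 * wid M), (pairs M).filter (isShort M),
      (pairs M).filter fun e => !isShort M e)

theorem mem_pairs {M : List (List Bool)} {e : ℕ × ℕ} : e ∈ pairs M ↔
    e.1 < M.length ∧ M.length ≤ e.2 ∧ e.2 < M.length + 2 * wid M := by
  unfold pairs
  simp only [List.mem_flatMap, List.mem_range, List.mem_map]
  constructor
  · rintro ⟨i, hi, k, hk, rfl⟩
    exact ⟨hi, by simp only; omega, by simp only; omega⟩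
  · rintro ⟨h1, h2, h3⟩
    exact ⟨e.1, h1, e.2 - M.length, by omega, Prod.ext rfl (by simp only; omega)⟩

theorem pairs_nodup (M : List (List Bool)) : (pairs M).Nodup := by
  unfold pairs
  rw [List.nodup_flatMap]
  constructor
  · intro i _
    refine List.Nodup.map ?_ List.nodup_range
    intro a b h
    simp only [Prod.mk.injEq, true_and] at h
    omega
  · refine List.Nodup.pairwise_of_forall_ne List.nodup_range ?_
    intro i _ j _ hij
    rw [Function.onFun, List.disjoint_left]
    intro x hx hx'
    rw [List.mem_map] at hx hx'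
    obtain ⟨k, -, rfl⟩ := hx
    obtain ⟨l, -, h⟩ := hx'
    simp only [Prod.mk.injEq] at h
    exact hij h.1.symm

theorem mem_edges {M : List (List Bool)} (h : ¬ (M.length = 0 ∨ wid M = 0)) {e : ℕ × ℕ} :
    e ∈ edges (red M) ↔ e.1 < M.length ∧ M.length ≤ e.2 ∧ e.2 < M.length + 2 * wid M := by
  rw [← mem_pairs]
  unfold edges red
  rw [if_neg h]
  simp only [List.mem_append, List.mem_filter, Bool.not_eq_true']
  constructor
  · rintro (⟨h1, -⟩ | ⟨h1, -⟩) <;> exact h1
  · intro h1
    cases h2 : isShort M e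
    · exact Or.inr ⟨h1, rfl⟩
    · exact Or.inl ⟨h1, rfl⟩

theorem red_isInst (M : List (List Bool)) : IsInst (red M) := by
  by_cases h : M.length = 0 ∨ wid M = 0
  · unfold red
    rw [if_pos h]
    constructor
    · intro e he
      have : e = (0, 1) := by simpa [edges] using he
      subst this
      simp
    · simp [edges]
  · constructor
    · intro e he
      have h1 := (mem_edges h).1 he
      unfold red
      rw [if_neg h]
      simp only [List.mem_range]
      omega
    · unfold edges red
      rw [if_neg h]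
      simp only
      rw [List.nodup_append]
      refine ⟨(pairs_nodup M).filter _, (pairs_nodup M).filter _, ?_⟩
      intro a ha b hb hab
      subst hab
      rw [List.mem_filter] at ha hb
      rw [ha.2] at hb
      exact absurd hb.2 (by simp)

theorem red_bip (M : List (List Bool)) : IsCompleteBipartite (red M) := by
  by_cases h : M.length = 0 ∨ wid M = 0
  · refine ⟨{0}, {1}, by simp, by simp, by simp, ?_, ?_⟩
    · intro v
      unfold red
      rw [if_pos h]
      simp
    · intro u v huv
      unfold red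
      rw [if_pos h]
      simp only [edges, List.append_nil, List.mem_singleton, Prod.mk.injEq, Finset.mem_singleton]
      omega
  · refine ⟨Finset.range M.length, Finset.Ico M.length (M.length + 2 * wid M), ?_, ?_, ?_, ?_, ?_⟩
    · exact ⟨0, Finset.mem_range.2 (by omega)⟩
    · exact ⟨M.length, Finset.mem_Ico.2 (by omega)⟩
    · rw [Finset.disjoint_left]
      intro a ha hb
      rw [Finset.mem_range] at ha
      rw [Finset.mem_Ico] at hb
      omega
    · intro v
      have : (red M).1 = List.range (M.length + 2 * wid M) := by unfold red; rw [if_neg h]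
      rw [this]
      simp only [List.mem_range, Finset.mem_range, Finset.mem_Ico]
      omega
    · intro u v huv
      rw [mem_edges h]
      simp only [Finset.mem_range, Finset.mem_Ico]
      omega

/-! ### From drawings to sign matrices -/

theorem len_sq (x y : ℝ × ℝ) : (x.1 - y.1) ^ 2 + (x.2 - y.2) ^ 2 = len x y ^ 2 := by
  unfold len
  rw [Real.sq_sqrt (by positivity)]

theorem len_nonneg (x y : ℝ × ℝ) : 0 ≤ len x y := Real.sqrt_nonneg _

theorem SR_of_real {M : List (List Bool)} {m : ℕ} (hM : Rect m M) (h : Realizable (red M)) :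
    SR 3 M := by
  by_cases h0 : M.length = 0 ∨ wid M = 0
  · refine ⟨fun _ => 0, fun _ => 0, fun i hi j hj => ?_⟩
    rw [wid_eq hM hi] at hj
    omega
  obtain ⟨p, hp⟩ := h
  have hred : red M = (List.range (M.length + 2 * wid M), (pairs M).filter (isShort M),
      (pairs M).filter fun e => !isShort M e) := by unfold red; rw [if_neg h0]
  set n := M.length with hn
  refine ⟨fun i => ![1, (p i).1, (p i).2], fun j =>
    ![(p (n + 2 * j + 1)).1 ^ 2 + (p (n + 2 * j + 1)).2 ^ 2 - (p (n + 2 * j)).1 ^ 2 -
      (p (n + 2 * j)).2 ^ 2, -2 * ((p (n + 2 * j + 1)).1 - (p (n + 2 * j)).1),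
      -2 * ((p (n + 2 * j + 1)).2 - (p (n + 2 * j)).2)], fun i hi j hj => ?_⟩
  have hj' : j < wid M := by rwa [wid_eq hM hi] at hj
  have hent := ent_eq hi hj
  have e : (![1, (p i).1, (p i).2] : Fin 3 → ℝ) ⬝ᵥ
      ![(p (n + 2 * j + 1)).1 ^ 2 + (p (n + 2 * j + 1)).2 ^ 2 - (p (n + 2 * j)).1 ^ 2 -
      (p (n + 2 * j)).2 ^ 2, -2 * ((p (n + 2 * j + 1)).1 - (p (n + 2 * j)).1),
      -2 * ((p (n + 2 * j + 1)).2 - (p (n + 2 * j)).2)] =
      len (p i) (p (n + 2 * j + 1)) ^ 2 - len (p i) (p (n + 2 * j)) ^ 2 := by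
    rw [← len_sq, ← len_sq, dotProduct, Fin.sum_univ_three]
    simp
    ring
  rw [e]
  have m1 : (i, n + 2 * j) ∈ pairs M := mem_pairs.2 ⟨hi, by simp only; omega, by simp only; omega⟩
  have m2 : (i, n + 2 * j + 1) ∈ pairs M :=
    mem_pairs.2 ⟨hi, by simp only; omega, by simp only; omega⟩
  have s1 : isShort M (i, n + 2 * j) = M[i][j] := by
    unfold isShort
    have : n + 2 * j - M.length = 2 * j := by omega
    simp only [this]
    rw [if_pos (by omega), show 2 * j / 2 = j by omega, hent]
  have s2 : isShort M (i, n + 2 * j + 1) = !M[i][j] := by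
    unfold isShort
    have : n + 2 * j + 1 - M.length = 2 * j + 1 := by omega
    simp only [this]
    rw [if_neg (by omega), show (2 * j + 1) / 2 = j by omega, hent]
  have hsh := hp.short
  have hlo := hp.long
  rw [hred] at hsh hlo
  simp only [List.mem_filter, and_imp] at hsh hlo
  have k1 := len_nonneg (p i) (p (n + 2 * j + 1))
  have k2 := len_nonneg (p i) (p (n + 2 * j))
  cases hb : M[i][j]
  · rw [hb] at s1 s2
    have a1 := hlo _ m1 (by rw [s1]; rfl)
    have a2 := hsh _ m2 s2
    simp only at a1 a2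
    rw [sgn_false]
    nlinarith
  · rw [hb] at s1 s2
    have a1 := hsh _ m1 s1
    have a2 := hlo _ m2 (by rw [s2]; rfl)
    simp only at a1 a2
    rw [sgn_true]
    nlinarith

/-! ### From sign matrices to drawings -/

theorem exists_unit {M : List (List Bool)} (h : SRN 2 M) : ∃ (y ν : ℕ → ℝ × ℝ) (c : ℕ → ℝ),
    (∀ j, (ν j).1 ^ 2 + (ν j).2 ^ 2 = 1) ∧ ∀ i (hi : i < M.length) j (hj : j < M[i].length),
      0 < sgn M[i][j] * (c j + ((y i).1 * (ν j).1 + (y i).2 * (ν j).2)) := by
  obtain ⟨y, η, c, hη, hy⟩ := h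
  have hN : ∀ j, 0 < Real.sqrt (η j 0 ^ 2 + η j 1 ^ 2) := fun j =>
    Real.sqrt_pos.2 (by have := hη j; positivity)
  refine ⟨fun i => (y i 0, y i 1), fun j => (η j 0 / Real.sqrt (η j 0 ^ 2 + η j 1 ^ 2),
    η j 1 / Real.sqrt (η j 0 ^ 2 + η j 1 ^ 2)), fun j => c j / Real.sqrt (η j 0 ^ 2 + η j 1 ^ 2),
    fun j => ?_, fun i hi j hj => ?_⟩
  · simp only
    rw [div_pow, div_pow, ← add_div, Real.sq_sqrt (by positivity)]
    have := hη j
    exact div_self (by positivity)
  · have h1 := hy i hi j hj
    rw [Finset.sum_range_succ, Finset.sum_range_one] at h1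
    simp only
    have e : sgn M[i][j] * (c j / Real.sqrt (η j 0 ^ 2 + η j 1 ^ 2) +
        (y i 0 * (η j 0 / Real.sqrt (η j 0 ^ 2 + η j 1 ^ 2)) +
          y i 1 * (η j 1 / Real.sqrt (η j 0 ^ 2 + η j 1 ^ 2)))) =
        (sgn M[i][j] * (c j + (y i 0 * η j 0 + y i 1 * η j 1))) /
          Real.sqrt (η j 0 ^ 2 + η j 1 ^ 2) := by ring
    rw [e]
    exact div_pos h1 (hN j)

/-- Positions of the vertices. -/
noncomputable def pos (n : ℕ) (y ν : ℕ → ℝ × ℝ) (c : ℕ → ℝ) (ε : ℝ) (v : ℕ) : ℝ × ℝ :=
  if v < n then (ε * (y v).1, ε * (y v).2) else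
    if (v - n) % 2 = 0 then
      ((1 - ε * c ((v - n) / 2)) * (ν ((v - n) / 2)).1, (1 - ε * c ((v - n) / 2)) * (ν ((v - n) / 2)).2)
    else
      (-(1 + ε * c ((v - n) / 2)) * (ν ((v - n) / 2)).1,
        -(1 + ε * c ((v - n) / 2)) * (ν ((v - n) / 2)).2)

theorem len_lt_iff (x y : ℝ × ℝ) : len x y < 1 ↔ (x.1 - y.1) ^ 2 + (x.2 - y.2) ^ 2 < 1 := by
  have := len_nonneg x y
  rw [len_sq]
  constructor
  · intro h; nlinarith
  · intro h; nlinarith

theorem lt_len_iff (x y : ℝ × ℝ) : 1 < len x y ↔ 1 < (x.1 - y.1) ^ 2 + (x.2 - y.2) ^ 2 := by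
  have := len_nonneg x y
  rw [len_sq]
  constructor
  · intro h; nlinarith
  · intro h; nlinarith

theorem small_pos {s q : ℝ} (hs : 0 < s) : ∀ᶠ ε in 𝓝[>] (0 : ℝ), ε ^ 2 * q < 2 * ε * s := by
  have hc : ContinuousAt (fun ε : ℝ => ε * q) 0 := by fun_prop
  have h0 : (fun ε : ℝ => ε * q) 0 < 2 * s := by simpa using hs
  filter_upwards [self_mem_nhdsWithin, nhdsWithin_le_nhds (hc.eventually_lt_const h0)] with ε h1 h2
  have h1' : 0 < ε := h1
  have h2' : ε * q < 2 * s := h2
  have := mul_lt_mul_of_pos_left h2' h1'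
  nlinarith

theorem real_of_SRN {M : List (List Bool)} {m : ℕ} (hM : Rect m M) (h : SRN 2 M) :
    Realizable (red M) := by
  by_cases h0 : M.length = 0 ∨ wid M = 0
  · refine exists_drawing (red_isInst M) (fun v => ((v : ℝ) / 2, 0)) ?_ ?_
    · intro e he
      unfold red at he
      rw [if_pos h0] at he
      have : e = (0, 1) := by simpa using he
      subst this
      rw [len_lt_iff]
      norm_num
    · intro e he
      unfold red at he
      rw [if_pos h0] at he
      simp at he
  obtain ⟨y, ν, c, hν, hy⟩ := exists_unit h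
  have hred : red M = (List.range (M.length + 2 * wid M), (pairs M).filter (isShort M),
      (pairs M).filter fun e => !isShort M e) := by unfold red; rw [if_neg h0]
  obtain ⟨n, hn⟩ : ∃ n, n = M.length := ⟨_, rfl⟩
  -- the main estimate
  have key : ∀ᶠ ε in 𝓝[>] (0 : ℝ), ∀ e ∈ (pairs M).toFinset,
      (isShort M e = true → len (pos n y ν c ε e.1) (pos n y ν c ε e.2) < 1) ∧
      (isShort M e = false → 1 < len (pos n y ν c ε e.1) (pos n y ν c ε e.2)) := by
    rw [eventually_all_finset]
    intro e he
    rw [List.mem_toFinset, mem_pairs] at he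
    obtain ⟨h1, h2, h3⟩ := he
    set j := (e.2 - n) / 2 with hj
    have hjm : j < M[e.1].length := by rw [wid_eq hM h1]; omega
    have hsgn := hy e.1 h1 j hjm
    have hent := ent_eq h1 hjm
    set s := c j + ((y e.1).1 * (ν j).1 + (y e.1).2 * (ν j).2) with hs
    set q := (y e.1).1 ^ 2 + (y e.1).2 ^ 2 + 2 * c j * ((y e.1).1 * (ν j).1 + (y e.1).2 * (ν j).2) +
      c j ^ 2 with hq
    have hνj := hν j
    have p1 : ∀ ε, pos n y ν c ε e.1 = (ε * (y e.1).1, ε * (y e.1).2) := by
      intro ε; unfold pos; rw [if_pos (by omega)]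
    by_cases hpar : (e.2 - n) % 2 = 0
    · have p2 : ∀ ε, pos n y ν c ε e.2 = ((1 - ε * c j) * (ν j).1, (1 - ε * c j) * (ν j).2) := by
        intro ε; unfold pos; rw [if_neg (by omega), if_pos hpar]
      have hl : ∀ ε, ((pos n y ν c ε e.1).1 - (pos n y ν c ε e.2).1) ^ 2 +
          ((pos n y ν c ε e.1).2 - (pos n y ν c ε e.2).2) ^ 2 = 1 - 2 * ε * s + ε ^ 2 * q := by
        intro ε
        rw [p1, p2, hs, hq]
        simp only
        linear_combination ((1 - ε * c j) ^ 2) * hνj
      have hsh : isShort M e = M[e.1][j] := by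
        unfold isShort
        rw [← hn, if_pos hpar, ← hj, hent]
      rw [hsh]
      cases hb : M[e.1][j]
      · rw [hb, sgn_false] at hsgn
        have hs' : 0 < -s := by linarith
        filter_upwards [small_pos (q := -q) hs'] with ε hε
        refine ⟨fun h => absurd h (by simp), fun _ => ?_⟩
        rw [lt_len_iff, hl]
        nlinarith
      · rw [hb, sgn_true, one_mul] at hsgn
        filter_upwards [small_pos (q := q) hsgn] with ε hε
        refine ⟨fun _ => ?_, fun h => absurd h (by simp)⟩
        rw [len_lt_iff, hl]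
        nlinarith
    · have p2 : ∀ ε, pos n y ν c ε e.2 = (-(1 + ε * c j) * (ν j).1, -(1 + ε * c j) * (ν j).2) := by
        intro ε; unfold pos; rw [if_neg (by omega), if_neg hpar]
      have hl : ∀ ε, ((pos n y ν c ε e.1).1 - (pos n y ν c ε e.2).1) ^ 2 +
          ((pos n y ν c ε e.1).2 - (pos n y ν c ε e.2).2) ^ 2 = 1 + 2 * ε * s + ε ^ 2 * q := by
        intro ε
        rw [p1, p2, hs, hq]
        simp only
        linear_combination ((1 + ε * c j) ^ 2) * hνj
      have hsh : isShort M e = !M[e.1][j] := by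
        unfold isShort
        rw [← hn, if_neg hpar, ← hj, hent]
      rw [hsh]
      cases hb : M[e.1][j]
      · rw [hb, sgn_false] at hsgn
        have hs' : 0 < -s := by linarith
        filter_upwards [small_pos (q := q) hs'] with ε hε
        refine ⟨fun _ => ?_, fun h => absurd h (by simp)⟩
        rw [len_lt_iff, hl]
        nlinarith
      · rw [hb, sgn_true, one_mul] at hsgn
        filter_upwards [small_pos (q := -q) hsgn] with ε hε
        refine ⟨fun h => absurd h (by simp), fun _ => ?_⟩
        rw [lt_len_iff, hl]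
        nlinarith
  obtain ⟨ε, hε⟩ := key.exists
  refine exists_drawing (red_isInst M) (pos n y ν c ε) ?_ ?_
  · intro e he
    rw [hred] at he
    simp only [List.mem_filter] at he
    exact (hε e (List.mem_toFinset.2 he.1)).1 he.2
  · intro e he
    rw [hred] at he
    simp only [List.mem_filter, Bool.not_eq_true'] at he
    exact (hε e (List.mem_toFinset.2 he.1)).2 he.2

end Pool.Agent.R553.LS
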